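import Pool.Agent.MHP.StmtsC

/-!
# MP_09e7c7_co, squad MHP, row CMC: composition property of the counting atoms
-/

set_option autoImplicit false

open scoped Classical

namespace Pool.Agent.MHP.H75

open Pool.Agent.HMT Pool.Agent.MHP

/-- finite information on `n₁` and `n₂` which determines if `n₁ + n₂ - d ≡ r` modulo `m` -/
theorem key (m r : ℕ) : ∃ (Q : Type) (_ : Finite Q) (q : ℕ → Q),
    ∀ n₁ n₂ n₁' n₂' n n' d : ℕ, d ≤ 1 → q n₁ = q n₁' → q n₂ = q n₂' → n + d = n₁ + n₂ →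
      n' + d = n₁' + n₂' → n ≡ r [MOD m] → n' ≡ r [MOD m] := by
  refine ⟨Fin (r + 3) × Fin (max m 1), inferInstance,
    fun n => (⟨min n (r + 2), by omega⟩,
      ⟨n % (max m 1), Nat.mod_lt _ (lt_of_lt_of_le one_pos (le_max_right _ _))⟩), ?_⟩
  intro n₁ n₂ n₁' n₂' n n' d hd h1 h2 hn hn' h
  simp only [Prod.mk.injEq, Fin.mk.injEq] at h1 h2
  obtain ⟨h1a, h1b⟩ := h1
  obtain ⟨h2a, h2b⟩ := h2
  rcases Nat.eq_zero_or_pos m with hm | hm
  · subst hm
    have h' : n = r := Nat.modEq_zero_iff.1 h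
    have e1 : n₁' = n₁ := by omega
    have e2 : n₂' = n₂ := by omega
    have e3 : n' = r := by omega
    rw [e3]
  · have hmax : max m 1 = m := by omega
    rw [hmax] at h1b h2b
    have h3 : n₁ + n₂ ≡ n₁' + n₂' [MOD m] := Nat.ModEq.add h1b h2b
    rw [← hn, ← hn'] at h3
    exact (Nat.ModEq.add_right_cancel' d h3).symm.trans h

theorem card_set (K A : PG) (S : Set (VG K A)) :
    Nat.card S + (if K.r ∈ {v | Sum.inl v ∈ S} then 1 else 0) =
      Nat.card {v : K.V | Sum.inl v ∈ S} + Nat.card {v : A.V | emb A.r K.r v ∈ S} := by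
  have hu : S = Sum.inl '' {v : K.V | Sum.inl v ∈ S} ∪
      emb A.r K.r '' {v : A.V | emb A.r K.r v ∈ S} := by
    ext p
    constructor
    · intro hp
      rcases inl_or_emb A.r K.r p with ⟨a, rfl⟩ | ⟨a, -, rfl⟩
      · exact Or.inl ⟨a, hp, rfl⟩
      · exact Or.inr ⟨a, hp, rfl⟩
    · rintro (⟨a, ha, rfl⟩ | ⟨a, ha, rfl⟩)
      · exact ha
      · exact ha
  have hi : ((Sum.inl '' {v : K.V | Sum.inl v ∈ S}) ∩
      (emb A.r K.r '' {v : A.V | emb A.r K.r v ∈ S})).ncard =
        (if K.r ∈ {v | Sum.inl v ∈ S} then 1 else 0) := by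
    by_cases hr : K.r ∈ {v | Sum.inl v ∈ S}
    · rw [if_pos hr]
      have he : (Sum.inl '' {v : K.V | Sum.inl v ∈ S}) ∩
          (emb A.r K.r '' {v : A.V | emb A.r K.r v ∈ S}) = {Sum.inl K.r} := by
        ext p
        constructor
        · rintro ⟨⟨a, ha, rfl⟩, ⟨b, hb, hab⟩⟩
          have h := (inl_eq_emb A.r K.r a b).1 hab.symm
          rw [h.1]; exact Set.mem_singleton _
        · intro hp
          rw [Set.mem_singleton_iff] at hp
          subst hp
          refine ⟨⟨K.r, hr, rfl⟩, ⟨A.r, ?_, emb_root _ _⟩⟩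
          rw [Set.mem_ofPred_eq, emb_root]
          exact hr
      rw [he, Set.ncard_singleton]
    · rw [if_neg hr]
      have he : (Sum.inl '' {v : K.V | Sum.inl v ∈ S}) ∩
          (emb A.r K.r '' {v : A.V | emb A.r K.r v ∈ S}) = ∅ := by
        ext p
        constructor
        · rintro ⟨⟨a, ha, rfl⟩, ⟨b, hb, hab⟩⟩
          have h := (inl_eq_emb A.r K.r a b).1 hab.symm
          rw [h.1] at ha
          exact absurd ha hr
        · intro hp
          exact absurd hp (Set.notMem_empty _)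
      rw [he, Set.ncard_empty]
  have h := Set.ncard_union_add_ncard_inter (Sum.inl '' {v : K.V | Sum.inl v ∈ S})
    (emb A.r K.r '' {v : A.V | emb A.r K.r v ∈ S}) (Set.toFinite _) (Set.toFinite _)
  rw [hi, ← hu, Set.ncard_image_of_injective _ Sum.inl_injective,
    Set.ncard_image_of_injective _ (emb_injective A.r K.r)] at h
  exact h

theorem card_edges (K A : PG) (S : Set (Sym2 (VG K A))) (hS : S ⊆ (gl K A).edgeSet) :
    Nat.card S = Nat.card {e : Sym2 K.V | Sym2.map Sum.inl e ∈ S} +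
      Nat.card {e : Sym2 A.V | Sym2.map (emb A.r K.r) e ∈ S} := by
  have hu : S = Sym2.map Sum.inl '' {e : Sym2 K.V | Sym2.map Sum.inl e ∈ S} ∪
      Sym2.map (emb A.r K.r) '' {e : Sym2 A.V | Sym2.map (emb A.r K.r) e ∈ S} := by
    ext e
    constructor
    · intro he
      have hadj := hS he
      induction e using Sym2.ind with
      | _ p q =>
        rw [SimpleGraph.mem_edgeSet] at hadj
        rcases (glue_adj_iff _ _ _ _ p q).1 hadj with ⟨a, b, rfl, rfl, -⟩ | ⟨a, b, rfl, rfl, -⟩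
        · exact Or.inl ⟨s(a, b), he, rfl⟩
        · exact Or.inr ⟨s(a, b), he, rfl⟩
    · rintro (⟨a, ha, rfl⟩ | ⟨a, ha, rfl⟩)
      · exact ha
      · exact ha
  have hd : Disjoint (Sym2.map Sum.inl '' {e : Sym2 K.V | Sym2.map Sum.inl e ∈ S})
      (Sym2.map (emb A.r K.r) '' {e : Sym2 A.V | Sym2.map (emb A.r K.r) e ∈ S}) := by
    rw [Set.disjoint_left]
    rintro e ⟨e₁, h1, rfl⟩ ⟨e₂, h2, h3⟩
    induction e₁ using Sym2.ind with
    | _ a b =>
      induction e₂ using Sym2.ind with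
      | _ c d =>
        have hadj : (gl K A).Adj (Sum.inl a) (Sum.inl b) := hS h1
        have hne : a ≠ b := fun h => by
          rw [h] at hadj
          exact (gl K A).irrefl hadj
        rw [Sym2.map_mk, Sym2.map_mk] at h3
        rcases Sym2.eq_iff.1 h3 with ⟨h4, h5⟩ | ⟨h4, h5⟩
        · have h6 := (inl_eq_emb A.r K.r a c).1 h4.symm
          have h7 := (inl_eq_emb A.r K.r b d).1 h5.symm
          exact hne (h6.1.trans h7.1.symm)
        · have h6 := (inl_eq_emb A.r K.r b c).1 h4.symm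
          have h7 := (inl_eq_emb A.r K.r a d).1 h5.symm
          exact hne (h7.1.trans h6.1.symm)
  have h := Set.ncard_union_eq hd (Set.toFinite _) (Set.toFinite _)
  rw [← hu, Set.ncard_image_of_injective _ (Sym2.map.injective Sum.inl_injective),
    Set.ncard_image_of_injective _ (Sym2.map.injective (emb_injective A.r K.r))] at h
  exact h

/-- Row CMC. -/
theorem cmc : CmcStmt := by
  constructor
  · intro a b c k m r
    obtain ⟨Q, hQ, q, hq⟩ := key m r
    refine ⟨Q × Prop, inferInstance, fun A v => (q (Nat.card (v.X k)), A.r ∈ v.X k),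
      fun s t => ∃ n₁ n₂ n : ℕ, q n₁ = s.1 ∧ q n₂ = t.1 ∧
        n + (if s.2 then 1 else 0) = n₁ + n₂ ∧ n ≡ r [MOD m], ?_⟩
    intro K A x X F hF
    have hc := card_set K A (X k)
    constructor
    · intro h
      exact ⟨_, _, _, rfl, rfl, hc, h⟩
    · rintro ⟨n₁, n₂, n, h1, h2, h3, h4⟩
      refine hq n₁ n₂ _ _ n _ _ ?_ h1 h2 h3 hc h4
      split_ifs <;> omega
  · intro a b c k m r
    obtain ⟨Q, hQ, q, hq⟩ := key m r
    refine ⟨Q, inferInstance, fun A v => q (Nat.card (v.F k)),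
      fun s t => ∃ n₁ n₂ n : ℕ, q n₁ = s ∧ q n₂ = t ∧ n = n₁ + n₂ ∧ n ≡ r [MOD m], ?_⟩
    intro K A x X F hF
    have hc := card_edges K A (F k) (hF k)
    constructor
    · intro h
      exact ⟨_, _, _, rfl, rfl, hc, h⟩
    · rintro ⟨n₁, n₂, n, h1, h2, h3, h4⟩
      exact hq n₁ n₂ _ _ n _ 0 (Nat.zero_le _) h1 h2 h3 hc h4

end Pool.Agent.MHP.H75
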